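import Pool.Agent.Helper40.W4.Spec

/-! # I2: the torsion of `I²` -/

set_option autoImplicit false

namespace Pool.Agent.Helper51.W4

open Pool.Agent.Helper40.W4 Module

section
variable {K : Type} [Field K]

/-- `(1 - ⟨a⟩)(1 - ⟨b⟩) = 0` if `x² - a y² = b`. -/
lemma pf2_zero (a b : Kˣ) (x y : K) (h : x ^ 2 - a * y ^ 2 = b) :
    (1 - br a) * (1 - br b) = 0 := by
  have haa := br_mul_self a
  by_cases hx : x = 0
  · have hy : y ≠ 0 := by
      rintro rfl
      exact b.ne_zero (by rw [← h, hx]; simp)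
    have hb : b = -(a * (Units.mk0 y hy) ^ 2) := by
      ext; simp [← h, hx]
    rw [hb, br_neg, br_mul_sq]
    calc (1 - br a) * (1 - -br a) = 1 - br a * br a := by ring
      _ = 0 := by rw [haa, sub_self]
  · by_cases hy : y = 0
    · have hb : b = (Units.mk0 x hx) ^ 2 := by ext; simp [← h, hy]
      rw [hb, br_sq, sub_self, mul_zero]
    · set X := Units.mk0 x hx with hX
      set Y := Units.mk0 y hy with hY
      have h1 : ((X ^ 2 : Kˣ) : K) + ((-(a * Y ^ 2) : Kˣ) : K) = (b : K) := by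
        simp only [Units.val_pow_eq_pow_val, Units.val_neg, Units.val_mul, hX, hY,
          Units.val_mk0]
        rw [← h]; ring
      have h2 := br_add h1
      have h3 : X ^ 2 * -(a * Y ^ 2) * b = -(a * b * (X * Y) ^ 2) := by
        ext
        simp only [Units.val_pow_eq_pow_val, Units.val_neg, Units.val_mul]
        ring
      rw [h3, br_sq, br_neg, br_mul_sq, br_neg, br_mul_sq, br_mul] at h2
      calc (1 - br a) * (1 - br b) = (1 + -br a) - (br b + -(br a * br b)) := by ring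
        _ = 0 := by rw [h2, sub_self]

lemma cl_append {m n : ℕ} (a : Fin m → Kˣ) (b : Fin n → Kˣ) :
    cl (Fin.append a b) = cl a + cl b := by
  unfold cl
  rw [Fin.sum_univ_add]
  simp

lemma cl_neg {n : ℕ} (b : Fin n → Kˣ) : cl (fun i => -b i) = -cl b := by
  unfold cl
  simp [br_neg]

lemma cl_snoc {n : ℕ} (a : Fin n → Kˣ) (v : Kˣ) :
    cl (Fin.snoc (α := fun _ => Kˣ) a v) = cl a + br v := by
  unfold cl
  rw [Fin.sum_univ_castSucc]
  simp

lemma cl_cons {n : ℕ} (a : Fin n → Kˣ) (v : Kˣ) :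
    cl (Fin.cons (α := fun _ => Kˣ) v a) = br v + cl a := by
  unfold cl
  rw [Fin.sum_univ_succ]
  simp

/-- A form with the class of a shorter form is isotropic. -/
lemma isot_of_cl_eq (hS : S_SOUND) [CharZero K] {m n : ℕ} (c : Fin m → Kˣ) (b : Fin n → Kˣ)
    (hmn : n < m) (h : cl c = cl b) : Isot (fun i => (c i : K)) := by
  have h1 : cl (Fin.append c (fun i => -b i)) = 0 := by
    rw [cl_append, cl_neg, h, add_neg_cancel]
  obtain ⟨U, hU, hd⟩ := ((hS K).1 _ _).1 h1
  let φ : U →ₗ[K] (Fin n → K) :=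
    { toFun := fun x i => (x : Fin (m + n) → K) (Fin.natAdd m i)
      map_add' := fun x y => rfl
      map_smul' := fun r x => rfl }
  have hker : LinearMap.ker φ ≠ ⊥ := by
    refine LinearMap.ker_ne_bot_of_finrank_lt ?_
    rw [finrank_fin_fun]
    omega
  obtain ⟨x, hx, hx0⟩ := (Submodule.ne_bot_iff _).1 hker
  have hz : ∀ i, (x : Fin (m + n) → K) (Fin.natAdd m i) = 0 := fun i =>
    congrFun (LinearMap.mem_ker.1 hx) i
  refine ⟨fun i => (x : Fin (m + n) → K) (Fin.castAdd n i), ?_, ?_⟩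
  · intro h0
    apply hx0
    ext i
    refine Fin.addCases (fun i => ?_) (fun i => ?_) i
    · exact congrFun h0 i
    · exact hz i
  · have h2 := hU x x.2
    rw [Fin.sum_univ_add] at h2
    simpa [hz] using h2

/-- torsion free part (A) -/
lemma fI_sq_eq_bot (h : ∀ a b : Kˣ, (1 - br a) * (1 - br b) = (0 : W K)) : fI K ^ 2 = ⊥ := by
  rw [pow_two, fI, Ideal.span_mul_span', Ideal.span_eq_bot]
  rintro x ⟨_, ⟨a, rfl⟩, _, ⟨b, rfl⟩, rfl⟩
  exact h a b

end

section core
variable {K : Type} [Field K] [CharZero K]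

/-- The key step: an element killed by `2` is `1 - ⟨s⟩` with `s` a sum of two squares. -/
lemma two_torsion (hV : S_WVAL) (hS : S_SOUND) (hi : ∀ x : K, x ^ 2 ≠ -1)
    (hsq : ∀ (a s : Kˣ) (u v : K), (s : K) = u ^ 2 + v ^ 2 → (1 - br a) * (1 - br s) = 0) :
    ∀ (n : ℕ) (a : Fin n → Kˣ), 2 * cl a = 0 →
      ∃ (s : Kˣ) (u v : K), (s : K) = u ^ 2 + v ^ 2 ∧ cl a = 1 - br s := by
  have hc : ∀ (c s : Kˣ) (u v : K), (s : K) = u ^ 2 + v ^ 2 → br c * (1 - br s) = 1 - br s := by
    intro c s u v h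
    have := hsq c s u v h
    calc br c * (1 - br s) = (1 - br s) - (1 - br c) * (1 - br s) := by ring
      _ = _ := by rw [this, sub_zero]
  have hadd : ∀ (s t : Kˣ), (∃ u v : K, (s : K) = u ^ 2 + v ^ 2) →
      (∃ u v : K, (t : K) = u ^ 2 + v ^ 2) →
      (∃ u v : K, ((s * t : Kˣ) : K) = u ^ 2 + v ^ 2) ∧
        (1 - br s) + (1 - br t) = 1 - br (s * t) := by
    rintro s t ⟨u, v, hs⟩ ⟨u', v', ht⟩
    refine ⟨⟨u * u' - v * v', u * v' + v * u', ?_⟩, ?_⟩
    · rw [Units.val_mul, hs, ht]; ring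
    · have := hsq s t u' v' ht
      rw [br_mul]
      calc (1 - br s) + (1 - br t) = (1 - br s * br t) + (1 - br s) * (1 - br t) := by ring
        _ = _ := by rw [this, add_zero]
  intro n
  induction n using Nat.strong_induction_on with
  | _ n ih =>
  intro a ha
  by_cases hmin : ∃ m, m < n ∧ ∃ b : Fin m → Kˣ, cl a = cl b
  · obtain ⟨m, hm, b, hb⟩ := hmin
    rw [hb] at ha ⊢
    exact ih m hm b ha
  push Not at hmin
  rcases Nat.eq_zero_or_pos n with rfl | hn
  · refine ⟨1, 1, 0, by simp, ?_⟩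
    simp [cl]
  obtain ⟨n, rfl⟩ : ∃ k, n = k + 1 := ⟨n - 1, by omega⟩
  -- anisotropy of all representations of length `n + 1`
  have haniso : ∀ c : Fin (n + 1) → Kˣ, cl c = cl a → ¬ Isot (fun i => (c i : K)) := by
    intro c hca hc
    obtain ⟨m, b, hm, hb⟩ := (hV K).2.2 _ c hc
    exact hmin m (by omega) b (by rw [← hca, hb])
  -- `a ⊥ a` is isotropic
  have h1 : cl (Fin.append a a) = 0 := by rw [cl_append, ← two_mul, ha]
  obtain ⟨z, hz, hz2⟩ := (hS K).2 _ _ (by omega) h1
  rw [Fin.sum_univ_add] at hz2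
  simp only [Fin.append_left, Fin.append_right] at hz2
  set x : Fin (n + 1) → K := fun i => z (Fin.castAdd (n + 1) i) with hx
  set y : Fin (n + 1) → K := fun i => z (Fin.natAdd (n + 1) i) with hy
  have hxy : ∑ i, (a i : K) * x i ^ 2 ≠ 0 := by
    intro h0
    have h0' : ∑ i, (a i : K) * y i ^ 2 = 0 := by
      change ∑ i, (a i : K) * x i ^ 2 + ∑ i, (a i : K) * y i ^ 2 = 0 at hz2
      rwa [h0, zero_add] at hz2
    have hx0 : x = 0 := by
      by_contra hne
      exact haniso a rfl ⟨x, hne, h0⟩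
    have hy0 : y = 0 := by
      by_contra hne
      exact haniso a rfl ⟨y, hne, h0'⟩
    apply hz
    funext i
    refine Fin.addCases (fun i => ?_) (fun i => ?_) i
    · exact congrFun hx0 i
    · exact congrFun hy0 i
  set v : Kˣ := Units.mk0 _ hxy with hv
  have hyv : ∑ i, (a i : K) * y i ^ 2 = ((-v : Kˣ) : K) := by
    change ∑ i, (a i : K) * x i ^ 2 + ∑ i, (a i : K) * y i ^ 2 = 0 at hz2
    rw [Units.val_neg, hv, Units.val_mk0]
    exact eq_neg_of_add_eq_zero_right hz2
  obtain ⟨b, hb⟩ := (hV K).2.1 n a x v rfl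
  obtain ⟨b', hb'⟩ := (hV K).2.1 n a y (-v) hyv
  rw [br_neg] at hb'
  -- the form `⟨v⟩ ⊥ b ⊥ ⟨v⟩`
  have h2 : cl (Fin.snoc (α := fun _ => Kˣ) (Fin.cons (α := fun _ => Kˣ) v b) v) = cl b' := by
    rw [cl_snoc, cl_cons, ← hb, hb']; ring
  obtain ⟨w, hw, hw2⟩ := isot_of_cl_eq hS _ b' (by omega) h2
  rw [Fin.sum_univ_castSucc] at hw2
  simp only [Fin.snoc_castSucc, Fin.snoc_last] at hw2
  set t := w (Fin.last (n + 1)) with ht
  have ht0 : t ≠ 0 := by
    intro h0
    rw [h0] at hw2
    apply haniso (Fin.cons (α := fun _ => Kˣ) v b) (by rw [cl_cons, ← hb])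
    refine ⟨fun i => w (Fin.castSucc i), ?_, by simpa using hw2⟩
    intro h3
    apply hw
    funext i
    refine Fin.lastCases ?_ (fun i => ?_) i
    · exact h0
    · exact congrFun h3 i
  rw [Fin.sum_univ_succ] at hw2
  simp only [Fin.cons_zero, Fin.cons_succ] at hw2
  set x0 := w (Fin.castSucc 0) with hx0
  have hs0 : x0 ^ 2 + t ^ 2 ≠ 0 := by
    intro h0
    apply hi (x0 / t)
    rw [div_pow, div_eq_iff (pow_ne_zero 2 ht0)]
    linear_combination h0
  set s : Kˣ := Units.mk0 _ hs0 with hs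
  have hsx : (s : K) = x0 ^ 2 + t ^ 2 := by rw [hs, Units.val_mk0]
  have hbv : ∑ i : Fin n, (b i : K) * w (Fin.castSucc i.succ) ^ 2 = ((-(v * s) : Kˣ) : K) := by
    rw [Units.val_neg, Units.val_mul, hsx]
    linear_combination hw2
  rcases Nat.eq_zero_or_pos n with rfl | hn'
  · exfalso
    rw [Finset.univ_eq_empty, Finset.sum_empty] at hbv
    exact (-(v * s)).ne_zero hbv.symm
  obtain ⟨n, rfl⟩ : ∃ k, n = k + 1 := ⟨n - 1, by omega⟩
  obtain ⟨b'', hb''⟩ := (hV K).2.1 n b _ (-(v * s)) hbv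
  have h3 : cl a = (1 - br s) + cl b'' := by
    rw [hb, hb'', br_neg, br_mul]
    calc br v + (-(br v * br s) + cl b'') = br v * (1 - br s) + cl b'' := by ring
      _ = _ := by rw [hc v s _ _ hsx]
  have h4 : 2 * cl b'' = 0 := by
    have h5 : (2 : W K) * (1 - br s) = 0 := by
      have := hsq (-1) s _ _ hsx
      rw [br_neg, br_one] at this
      rw [← this]; ring
    calc 2 * cl b'' = 2 * cl a - 2 * (1 - br s) := by rw [h3]; ring
      _ = 0 := by rw [ha, h5, sub_zero]
  obtain ⟨s', u', v', hs', hcl⟩ := ih n (by omega) b'' h4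
  obtain ⟨⟨u'', v'', h6⟩, h7⟩ := hadd s s' ⟨_, _, hsx⟩ ⟨_, _, hs'⟩
  exact ⟨s * s', u'', v'', h6, by rw [h3, hcl, h7]⟩

end core

theorem I2_thm (hV : S_WVAL) (hS : S_SOUND) (hP : S_PFI) (hD : S_DISC) : S_I2 := by
  intro l _ _
  constructor
  · intro _ hU ξ hξ N _ _
    have : fI l ^ 2 = ⊥ := fI_sq_eq_bot fun a b => by
      obtain ⟨x, y, hxy⟩ := hU a b a.ne_zero b.ne_zero
      exact pf2_zero a b x y hxy
    rw [this] at hξ
    exact (Submodule.mem_bot _).1 hξ
  · rintro hi ⟨l', _, _, j, hj, hfin, hU⟩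
    -- coordinates
    have hjn : ∀ c : l, algebraMap l l' c ≠ j := by
      intro c hc
      apply hi c
      apply (algebraMap l l').injective
      rw [map_pow, hc, hj, map_neg, map_one]
    have hli : LinearIndependent l ![(1 : l'), j] := by
      rw [LinearIndependent.pair_iff]
      intro c d h
      have hd : d = 0 := by
        by_contra hd
        apply hjn (-c / d)
        have h1 : algebraMap l l' d ≠ 0 := by
          rw [Ne, map_eq_zero]; exact hd
        rw [map_div₀, map_neg, div_eq_iff h1]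
        rw [Algebra.smul_def, Algebra.smul_def, mul_one] at h
        linear_combination -h
      rw [hd, zero_smul, add_zero, Algebra.smul_def, mul_one, map_eq_zero] at h
      exact ⟨h, hd⟩
    have hspan : ∀ z : l', ∃ p q : l, z = algebraMap l l' p + algebraMap l l' q * j := by
      intro z
      have : FiniteDimensional l l' := Module.finite_of_finrank_pos (by omega)
      have h1 := hli.span_eq_top_of_card_eq_finrank (by simp [hfin])
      have h2 : z ∈ Submodule.span l (Set.range ![(1 : l'), j]) := by rw [h1]; trivial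
      rw [Matrix.range_cons, Matrix.range_cons, Matrix.range_empty, Set.union_empty,
        Set.singleton_union, Submodule.mem_span_pair] at h2
      obtain ⟨p, q, h3⟩ := h2
      exact ⟨p, q, by rw [← h3, Algebra.smul_def, Algebra.smul_def, mul_one]⟩
    have huniq : ∀ p q p' q' : l, algebraMap l l' p + algebraMap l l' q * j =
        algebraMap l l' p' + algebraMap l l' q' * j → p = p' ∧ q = q' := by
      intro p q p' q' h
      have h1 := LinearIndependent.pair_iff.1 hli (p - p') (q - q') (by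
        rw [Algebra.smul_def, Algebra.smul_def, mul_one, map_sub, map_sub]
        linear_combination h)
      exact ⟨sub_eq_zero.1 h1.1, sub_eq_zero.1 h1.2⟩
    have hsq : ∀ (a s : lˣ) (u v : l), (s : l) = u ^ 2 + v ^ 2 →
        (1 - br a) * (1 - br s) = (0 : W l) := by
      intro a s u v hs
      have hβ : algebraMap l l' u + algebraMap l l' v * j ≠ 0 := by
        intro h0
        have h1 : algebraMap l l' u + algebraMap l l' v * j =
            algebraMap l l' 0 + algebraMap l l' 0 * j := by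
          rw [h0, map_zero]; ring
        obtain ⟨hu, hv⟩ := huniq _ _ _ _ h1
        exact s.ne_zero (by rw [hs, hu, hv]; ring)
      have hα : algebraMap l l' a ≠ 0 := by rw [Ne, map_eq_zero]; exact a.ne_zero
      obtain ⟨x, y, hxy⟩ := hU _ _ hα hβ
      obtain ⟨x1, x2, rfl⟩ := hspan x
      obtain ⟨y1, y2, rfl⟩ := hspan y
      have h2 : algebraMap l l' (x1 ^ 2 - x2 ^ 2 - a * (y1 ^ 2 - y2 ^ 2)) +
          algebraMap l l' (2 * x1 * x2 - 2 * a * y1 * y2) * j =
          algebraMap l l' u + algebraMap l l' v * j := by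
        rw [← hxy]
        simp only [map_sub, map_mul, map_pow, map_ofNat]
        linear_combination (-(algebraMap l l' x2) ^ 2 +
          algebraMap l l' a * (algebraMap l l' y2) ^ 2) * hj
      obtain ⟨hu, hv⟩ := huniq _ _ _ _ h2
      refine pf2_zero a s (x1 ^ 2 + x2 ^ 2 + a * (y1 ^ 2 + y2 ^ 2)) (2 * (x1 * y1 + x2 * y2)) ?_
      rw [hs, ← hu, ← hv]
      ring
    have htwo := two_torsion (K := l) hV hS hi hsq
    have h2 : ∀ η ∈ fI l ^ 2, 2 * η = 0 → η = 0 := by
      intro η hη h2η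
      obtain ⟨n, a, rfl⟩ := (hV l).1 η
      obtain ⟨s, u, v, hs, hcl⟩ := htwo n a h2η
      rw [hcl] at hη ⊢
      obtain ⟨r, hr⟩ := (hD l).2 s hη
      rw [hr, br_mul, br_mul_self, sub_self]
    intro ξ hξ N hN hN0
    obtain ⟨r, hr⟩ := hP l ξ N hN hN0
    clear hN0
    induction r generalizing ξ with
    | zero => simpa using hr
    | succ r ih =>
      apply ih ξ hξ
      refine h2 _ (Ideal.mul_mem_left _ _ hξ) ?_
      rw [← hr, pow_succ]; ring

end Pool.Agent.Helper51.W4
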