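import Pool.Agent.Helper40.W4.Spec

/-! # PFI: torsion of the Witt ring is 2-primary -/

set_option autoImplicit false

namespace Pool.Agent.Helper51.W4

open Pool.Agent.Helper40.W4

variable {K : Type} [Field K]

/-- index type of the Pfister form of a list -/
def IT : List Kˣ → Type
  | [] => Unit
  | _ :: l => IT l ⊕ IT l

noncomputable instance instIT : ∀ l : List Kˣ, Fintype (IT l)
  | [] => inferInstanceAs (Fintype Unit)
  | _ :: l => by
    have := instIT l
    exact inferInstanceAs (Fintype (IT l ⊕ IT l))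

/-- coefficients of the Pfister form of a list -/
def co : ∀ l : List Kˣ, IT l → Kˣ
  | [], _ => 1
  | _ :: l, Sum.inl i => co l i
  | a :: l, Sum.inr i => a * co l i

/-- Pfister class of a list -/
noncomputable def pf (l : List Kˣ) : W K := (l.map fun a => 1 + br a).prod

/-- value of the Pfister form -/
noncomputable def qv (l : List Kˣ) (x : IT l → K) : K := ∑ i, (co l i : K) * x i ^ 2

lemma qv_nil (x : IT ([] : List Kˣ) → K) : qv [] x = x () ^ 2 := by
  have : qv [] x = ∑ i : Unit, ((co ([] : List Kˣ) i : Kˣ) : K) * x i ^ 2 := rfl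
  rw [this]
  simp [co]

lemma qv_cons (a : Kˣ) (l : List Kˣ) (x : IT (a :: l) → K) :
    qv (a :: l) x = qv l (fun i => x (Sum.inl i)) + a * qv l (fun i => x (Sum.inr i)) := by
  have : qv (a :: l) x = ∑ i : IT l ⊕ IT l, ((co (a :: l) i : Kˣ) : K) * x i ^ 2 := rfl
  rw [this, Fintype.sum_sum_type]
  unfold qv
  congr 1
  rw [Finset.mul_sum]
  refine Finset.sum_congr rfl fun i _ => ?_
  have : ((co (a :: l) (Sum.inr i) : Kˣ) : K) = a * co l i := by
    simp [co]
  rw [this, mul_assoc]

/-- values of the Pfister form -/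
def DD (l : List Kˣ) : Set K := {v | ∃ x : IT l → K, v = qv l x}

lemma zero_mem_DD (l : List Kˣ) : (0 : K) ∈ DD l := ⟨0, by simp [qv]⟩

lemma add_mem_DD {a : Kˣ} {l : List Kˣ} {u w : K} (hu : u ∈ DD l) (hw : w ∈ DD l) :
    u + a * w ∈ DD (a :: l) := by
  obtain ⟨x, rfl⟩ := hu
  obtain ⟨y, rfl⟩ := hw
  exact ⟨(Sum.elim x y : IT l ⊕ IT l → K),
    (qv_cons a l (Sum.elim x y : IT l ⊕ IT l → K)).symm⟩

lemma DD_cons {a : Kˣ} {l : List Kˣ} {v : K} (h : v ∈ DD (a :: l)) :
    ∃ u ∈ DD l, ∃ w ∈ DD l, v = u + a * w := by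
  obtain ⟨x, rfl⟩ := h
  exact ⟨_, ⟨_, rfl⟩, _, ⟨_, rfl⟩, qv_cons a l x⟩

lemma sum_br_co : ∀ l : List Kˣ, ∑ i, br (co l i) = pf l
  | [] => by
    have : ∑ i, br (co ([] : List Kˣ) i) = ∑ i : Unit, br (co ([] : List Kˣ) i) := rfl
    rw [this]
    simp [co, pf]
  | a :: l => by
    have : ∑ i, br (co (a :: l) i) = ∑ i : IT l ⊕ IT l, br (co (a :: l) i) := rfl
    rw [this, Fintype.sum_sum_type]
    have h1 : ∀ i, br (co (a :: l) (Sum.inl i)) = br (co l i) := fun i => rfl
    have h2 : ∀ i, br (co (a :: l) (Sum.inr i)) = br a * br (co l i) := fun i => by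
      rw [← br_mul]; rfl
    simp only [h1, h2, ← Finset.mul_sum, sum_br_co l]
    simp only [pf, List.map_cons, List.prod_cons]
    ring

lemma pf_cons (a : Kˣ) (l : List Kˣ) : pf (a :: l) = (1 + br a) * pf l := by
  simp [pf]

/-- The Pfister form is round. -/
lemma pf_round : ∀ (l : List Kˣ) (v : Kˣ), (v : K) ∈ DD l → br v * pf l = pf l
  | [], v, h => by
    obtain ⟨x, hx⟩ := h
    rw [qv_nil] at hx
    have hx0 : x () ≠ 0 := by
      intro h0
      rw [h0] at hx
      exact v.ne_zero (by simp at hx)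
    have : v = (Units.mk0 (x ()) hx0) ^ 2 := by ext; simpa using hx
    rw [this, br_sq, one_mul]
  | a :: l, v, h => by
    obtain ⟨u, hu, w, hw, hv⟩ := DD_cons h
    rw [pf_cons]
    have haa := br_mul_self a
    by_cases hu0 : u = 0
    · have hw0 : w ≠ 0 := by
        rintro rfl
        exact v.ne_zero (by rw [hv, hu0]; simp)
      have h1 := pf_round l (Units.mk0 w hw0) hw
      have h2 : v = a * Units.mk0 w hw0 := by ext; simp [hv, hu0]
      rw [h2, br_mul]
      calc br a * br (Units.mk0 w hw0) * ((1 + br a) * pf l)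
          = br a * (1 + br a) * (br (Units.mk0 w hw0) * pf l) := by ring
        _ = (br a + br a * br a) * pf l := by rw [h1]; ring
        _ = _ := by rw [haa]; ring
    · by_cases hw0 : w = 0
      · have h2 : v = Units.mk0 u hu0 := by ext; simp [hv, hw0]
        have h1 := pf_round l (Units.mk0 u hu0) hu
        rw [h2]
        calc br (Units.mk0 u hu0) * ((1 + br a) * pf l)
            = (1 + br a) * (br (Units.mk0 u hu0) * pf l) := by ring
          _ = _ := by rw [h1]
      · set U := Units.mk0 u hu0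
        set V := Units.mk0 w hw0
        have h1 : br U * pf l = pf l := pf_round l U hu
        have h2 : br V * pf l = pf l := pf_round l V hw
        have h3 : ((U : Kˣ) : K) + ((a * V : Kˣ) : K) = (v : K) := by
          rw [hv]; simp [U, V]
        have h4 := br_add h3
        rw [br_mul, br_mul, br_mul, br_mul] at h4
        have h5 : br v * (br U * (br a * br V)) * pf l = br v * br a * pf l := by
          calc br v * (br U * (br a * br V)) * pf l
              = br v * br a * (br U * (br V * pf l)) := by ring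
            _ = _ := by rw [h2, h1]
        calc br v * ((1 + br a) * pf l)
            = br v * pf l + br v * br a * pf l := by ring
          _ = (br v + br U * (br a * br V) * br v) * pf l := by rw [← h5]; ring
          _ = (br U + br a * br V) * pf l := by rw [← h4]
          _ = br U * pf l + br a * (br V * pf l) := by ring
          _ = _ := by rw [h1, h2]; ring

/-- An isotropic Pfister form has class zero. -/
lemma pf_isot : ∀ (l : List Kˣ) (x : IT l → K), x ≠ 0 → qv l x = 0 → pf l = 0
  | [], x, hx, h => by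
    rw [qv_nil] at h
    exact absurd (funext fun i => by
      have : i = () := rfl
      rw [this]
      exact pow_eq_zero_iff (two_ne_zero) |>.1 h) hx
  | a :: l, x, hx, h => by
    rw [qv_cons] at h
    rw [pf_cons]
    by_cases h1 : qv l (fun i => x (Sum.inl i)) = 0
    · have h2 : qv l (fun i => x (Sum.inr i)) = 0 := by
        rw [h1, zero_add] at h
        exact (mul_eq_zero.1 h).resolve_left a.ne_zero
      have h3 : (fun i => x (Sum.inl i)) ≠ 0 ∨ (fun i => x (Sum.inr i)) ≠ 0 := by
        by_contra hcon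
        push Not at hcon
        apply hx
        funext i
        rcases i with i | i
        · exact congrFun hcon.1 i
        · exact congrFun hcon.2 i
      rcases h3 with h3 | h3
      · rw [pf_isot l _ h3 h1, mul_zero]
      · rw [pf_isot l _ h3 h2, mul_zero]
    · have h2 : qv l (fun i => x (Sum.inr i)) ≠ 0 := by
        intro h2
        rw [h2, mul_zero, add_zero] at h
        exact h1 h
      set U := Units.mk0 _ h1 with hU
      set V := Units.mk0 _ h2 with hV
      have h3 : br U * pf l = pf l := pf_round l U ⟨_, rfl⟩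
      have h4 : br V * pf l = pf l := pf_round l V ⟨_, rfl⟩
      have h5 : U = -(a * V) := by
        ext
        simp only [hU, hV, Units.val_mk0, Units.val_neg, Units.val_mul]
        exact eq_neg_of_add_eq_zero_left h
      rw [h5, br_neg, br_mul] at h3
      calc (1 + br a) * pf l = pf l + br a * (br V * pf l) := by rw [h4]; ring
        _ = -(br a * br V) * pf l + br a * (br V * pf l) := by rw [h3]
        _ = 0 := by ring

lemma DD_mono {l : List Kˣ} {v : K} (h : v ∈ DD l) (n : ℕ) :
    v ∈ DD (List.replicate n (1 : Kˣ) ++ l) := by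
  induction n with
  | zero => simpa using h
  | succ n ih =>
    rw [List.replicate_succ, List.cons_append]
    have := add_mem_DD (a := (1 : Kˣ)) ih (zero_mem_DD _)
    simpa using this

lemma sum_mem_DD {l : List Kˣ} {ι : Type} [DecidableEq ι] (s : Finset ι) (u : ι → K)
    (h : ∀ i, u i ∈ DD l) : ∑ i ∈ s, u i ∈ DD (List.replicate s.card (1 : Kˣ) ++ l) := by
  induction s using Finset.induction_on with
  | empty => simpa using zero_mem_DD l
  | insert i s hi ih =>
    rw [Finset.sum_insert hi, Finset.card_insert_of_notMem hi, List.replicate_succ,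
      List.cons_append, add_comm]
    have := add_mem_DD (a := (1 : Kˣ)) ih (DD_mono (h i) s.card)
    simpa using this

lemma pf_replicate (n : ℕ) (l : List Kˣ) :
    pf (List.replicate n (1 : Kˣ) ++ l) = 2 ^ n * pf l := by
  induction n with
  | zero => simp
  | succ n ih =>
    rw [List.replicate_succ, List.cons_append, pf_cons, ih, br_one, pow_succ]
    ring

lemma isot_of_sum_zero (hS : S_SOUND) [CharZero K] {ι : Type} [Fintype ι] [Nonempty ι]
    (a : ι → Kˣ) (h : ∑ i, br (a i) = 0) :
    ∃ x : ι → K, x ≠ 0 ∧ ∑ i, (a i : K) * x i ^ 2 = 0 := by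
  let e := Fintype.equivFin ι
  have h1 : cl (fun i => a (e.symm i)) = 0 := by
    rw [cl, Equiv.sum_comp e.symm (fun i => br (a i))]
    exact h
  obtain ⟨x, hx, hx2⟩ := (hS K).2 (Fintype.card ι) (fun i => a (e.symm i)) Fintype.card_pos h1
  refine ⟨fun i => x (e i), ?_, ?_⟩
  · intro h0
    apply hx
    funext i
    have := congrFun h0 (e.symm i)
    simpa using this
  · rw [← hx2, ← Equiv.sum_comp e]
    simp

/-- Torsion Pfister classes are killed by a power of two. -/
lemma pf_torsion (hS : S_SOUND) [CharZero K] (l : List Kˣ) (m : ℕ) (hm : 0 < m)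
    (h : (m : W K) * pf l = 0) : ∃ r : ℕ, (2 : W K) ^ r * pf l = 0 := by
  have hne : Nonempty (IT l) := by
    clear h
    induction l with
    | nil => exact ⟨()⟩
    | cons a l ih => exact ⟨Sum.inl (Classical.choice ih)⟩
  have : Nonempty (Fin m) := ⟨⟨0, hm⟩⟩
  have h1 : ∑ i : Fin m × IT l, br (co l i.2) = 0 := by
    rw [Fintype.sum_prod_type]
    simp only [sum_br_co, Finset.sum_const, Finset.card_univ, Fintype.card_fin, nsmul_eq_mul, h]
  obtain ⟨x, hx, hx2⟩ := isot_of_sum_zero hS _ h1
  rw [Fintype.sum_prod_type] at hx2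
  by_cases hcase : ∃ k : Fin m, (fun i => x (k, i)) ≠ 0 ∧ qv l (fun i => x (k, i)) = 0
  · obtain ⟨k, hk, hk2⟩ := hcase
    exact ⟨0, by rw [pf_isot l _ hk hk2, mul_zero]⟩
  · push Not at hcase
    obtain ⟨k0, hk0⟩ : ∃ k : Fin m, (fun i => x (k, i)) ≠ 0 := by
      by_contra hcon
      push Not at hcon
      apply hx
      funext ⟨k, i⟩
      exact congrFun (hcon k) i
    have hu0 := hcase k0 hk0
    set u : Fin m → K := fun k => qv l (fun i => x (k, i)) with hu
    have hsum : ∑ k, u k = 0 := hx2
    have hs2 : ∑ k ∈ Finset.univ.erase k0, u k = -u k0 := by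
      rw [← Finset.add_sum_erase _ _ (Finset.mem_univ k0)] at hsum
      exact eq_neg_of_add_eq_zero_right hsum
    have hmem := sum_mem_DD (l := l) (Finset.univ.erase k0) u (fun k => ⟨_, rfl⟩)
    set n := (Finset.univ.erase k0).card with hn
    rw [hs2] at hmem
    have h2 : br (-(Units.mk0 (u k0) hu0)) * pf (List.replicate n (1 : Kˣ) ++ l) =
        pf (List.replicate n (1 : Kˣ) ++ l) := pf_round _ _ (by simpa using hmem)
    have h3 : br (Units.mk0 (u k0) hu0) * pf l = pf l := pf_round _ _ ⟨_, rfl⟩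
    rw [pf_replicate, br_neg] at h2
    refine ⟨n + 1, ?_⟩
    have h4 : -(br (Units.mk0 (u k0) hu0)) * (2 ^ n * pf l) = -(2 ^ n * pf l) := by
      calc -(br (Units.mk0 (u k0) hu0)) * (2 ^ n * pf l)
          = -(2 ^ n * (br (Units.mk0 (u k0) hu0) * pf l)) := by ring
        _ = _ := by rw [h3]
    rw [h4] at h2
    calc (2 : W K) ^ (n + 1) * pf l = 2 ^ n * pf l + 2 ^ n * pf l := by ring
      _ = -(2 ^ n * pf l) + 2 ^ n * pf l := by rw [h2]
      _ = 0 := by ring

theorem PFI_thm (hV : S_WVAL) (hS : S_SOUND) : S_PFI := by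
  intro K _ _ ξ N hN hξ
  obtain ⟨n, a, rfl⟩ := (hV K).1 ξ
  -- signs
  let sg : Bool → ℤ := fun b => if b then 1 else -1
  let su : Bool → Kˣ := fun b => if b then 1 else -1
  have hsu : ∀ b (x : Kˣ), br (su b * x) = (sg b : W K) * br x := by
    intro b x
    cases b
    · simp [su, sg, br_neg]
    · simp [su, sg]
  let L : (Fin n → Bool) → List Kˣ := fun ε => List.ofFn fun i => su (ε i) * a i
  have hL : ∀ ε, pf (L ε) = ∏ i, (1 + (sg (ε i) : W K) * br (a i)) := by
    intro ε
    simp only [pf, L, List.map_ofFn, List.prod_ofFn, Function.comp_apply, hsu]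
  have hsum : ∑ ε, pf (L ε) = 2 ^ n := by
    simp only [hL]
    have h1 := Finset.prod_univ_sum (fun _ : Fin n => (Finset.univ : Finset Bool))
      (fun (i : Fin n) (b : Bool) => (1 + (sg b : W K) * br (a i)))
    rw [Fintype.piFinset_univ] at h1
    rw [← h1]
    have h2 : ∀ i : Fin n, ∑ b : Bool, (1 + (sg b : W K) * br (a i)) = 2 := by
      intro i
      rw [Fintype.sum_bool]
      simp only [sg, if_true, Bool.false_eq_true, if_false, Int.cast_one, Int.cast_neg]
      ring
    simp only [h2, Finset.prod_const, Finset.card_univ, Fintype.card_fin]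
  have hmul : ∀ ε i, br (a i) * pf (L ε) = (sg (ε i) : W K) * pf (L ε) := by
    intro ε i
    rw [hL, ← Finset.mul_prod_erase _ _ (Finset.mem_univ i)]
    have h1 := br_mul_self (a i)
    have h2 : (sg (ε i) : W K) * (sg (ε i) : W K) = 1 := by
      cases ε i <;> simp [sg]
    calc br (a i) * ((1 + (sg (ε i) : W K) * br (a i)) *
          ∏ x ∈ Finset.univ.erase i, (1 + (sg (ε x) : W K) * br (a x)))
        = (br (a i) + (sg (ε i) : W K) * (br (a i) * br (a i))) *
          ∏ x ∈ Finset.univ.erase i, (1 + (sg (ε x) : W K) * br (a x)) := by ring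
      _ = ((sg (ε i) : W K) * (sg (ε i) : W K) * br (a i) + (sg (ε i) : W K)) *
          ∏ x ∈ Finset.univ.erase i, (1 + (sg (ε x) : W K) * br (a x)) := by rw [h1, h2]; ring
      _ = _ := by ring
  let M : (Fin n → Bool) → ℤ := fun ε => ∑ i, sg (ε i)
  have hM : ∀ ε, cl a * pf (L ε) = (M ε : W K) * pf (L ε) := by
    intro ε
    rw [cl, Finset.sum_mul]
    simp only [hmul, M]
    rw [← Finset.sum_mul, Int.cast_sum]
  have hkill : ∀ ε, ∃ r : ℕ, (2 : W K) ^ r * ((M ε : W K) * pf (L ε)) = 0 := by
    intro ε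
    by_cases hM0 : M ε = 0
    · exact ⟨0, by simp [hM0]⟩
    · have h1 : ((N * (M ε).natAbs : ℕ) : W K) * pf (L ε) = 0 := by
        have h2 : (N : W K) * ((M ε : W K) * pf (L ε)) = 0 := by
          rw [← hM, ← mul_assoc, hξ, zero_mul]
        rcases Int.natAbs_eq (M ε) with h3 | h3
        · push_cast
          rw [h3] at h2
          simpa [mul_assoc] using h2
        · push_cast
          rw [h3, Int.cast_neg, Int.cast_natCast] at h2
          have h4 : (N : W K) * (((M ε).natAbs : W K) * pf (L ε)) = 0 := by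
            have : (N : W K) * (-((M ε).natAbs : W K) * pf (L ε)) =
                -((N : W K) * (((M ε).natAbs : W K) * pf (L ε))) := by ring
            rw [this] at h2
            exact neg_eq_zero.1 h2
          rw [mul_assoc]
          exact h4
      obtain ⟨r, hr⟩ := pf_torsion hS (L ε) _ (Nat.mul_pos hN (Int.natAbs_pos.2 hM0)) h1
      refine ⟨r, ?_⟩
      calc (2 : W K) ^ r * ((M ε : W K) * pf (L ε)) = (M ε : W K) * (2 ^ r * pf (L ε)) := by ring
        _ = 0 := by rw [hr, mul_zero]
  choose r hr using hkill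
  refine ⟨(∑ ε, r ε) + n, ?_⟩
  calc (2 : W K) ^ ((∑ ε, r ε) + n) * cl a = 2 ^ (∑ ε, r ε) * (cl a * 2 ^ n) := by
        rw [pow_add]; ring
    _ = ∑ ε, 2 ^ (∑ ε, r ε) * ((M ε : W K) * pf (L ε)) := by
        rw [← hsum, Finset.mul_sum, Finset.mul_sum]
        exact Finset.sum_congr rfl fun ε _ => by rw [hM]
    _ = ∑ ε : Fin n → Bool, 0 := by
        refine Finset.sum_congr rfl fun ε _ => ?_
        obtain ⟨t, ht⟩ : ∃ t, ∑ ε, r ε = t + r ε :=
          ⟨∑ ε, r ε - r ε, (Nat.sub_add_cancel
            (Finset.single_le_sum (fun _ _ => Nat.zero_le _) (Finset.mem_univ ε))).symm⟩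
        rw [ht, pow_add, mul_assoc, hr, mul_zero]
    _ = 0 := by simp

end Pool.Agent.Helper51.W4
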