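import Pool.Agent.Helper40.W4.Spec

/-! # UNIQ: going up for universality of binary forms -/

set_option autoImplicit false

namespace Pool.Agent.Helper51.W4

open Pool.Agent.Helper40.W4 Module

section
variable {K : Type} [Field K]

/-- `b` is a value of `x² - γ y²` -/
def Nv (γ b : K) : Prop := ∃ x y : K, x ^ 2 - γ * y ^ 2 = b

lemma Nv_mul {γ a b : K} (ha : Nv γ a) (hb : Nv γ b) : Nv γ (a * b) := by
  obtain ⟨x, y, rfl⟩ := ha
  obtain ⟨u, v, rfl⟩ := hb
  exact ⟨x * u + γ * y * v, x * v + y * u, by ring⟩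

lemma Nv_inv {γ a : K} (ha : Nv γ a) (h0 : a ≠ 0) : Nv γ a⁻¹ := by
  obtain ⟨x, y, hxy⟩ := ha
  refine ⟨x / a, y / a, ?_⟩
  have : (x / a) ^ 2 - γ * (y / a) ^ 2 = (x ^ 2 - γ * y ^ 2) / a ^ 2 := by ring
  rw [this, hxy]
  field_simp

lemma Nv_sq [CharZero K] {ε : K} (hε : ε ≠ 0) (b : K) : Nv (ε ^ 2) b := by
  refine ⟨(b + 1) / 2, (b - 1) / (2 * ε), ?_⟩
  field_simp
  ring

lemma Nv_symm [CharZero K] {a b : K} (_ : a ≠ 0) (hb : b ≠ 0) (h : Nv a b) : Nv b a := by
  obtain ⟨x, y, hxy⟩ := h
  by_cases hy : y = 0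
  · have hx : x ≠ 0 := by
      rintro rfl
      apply hb
      rw [← hxy, hy]; ring
    have : b = x ^ 2 := by rw [← hxy, hy]; ring
    rw [this]
    exact Nv_sq hx a
  · refine ⟨x / y, 1 / y, ?_⟩
    field_simp
    linear_combination hxy

end

theorem UNIQ_thm : S_UNIQ := by
  intro E E' _ _ _ _ hfin _ hU
  have : CharZero E' := charZero_of_injective_algebraMap (algebraMap E E').injective
  have hfd : FiniteDimensional E E' := Module.finite_of_finrank_pos (by omega)
  -- a generator
  obtain ⟨θ, hθ⟩ : ∃ θ : E', ∀ c : E, algebraMap E E' c ≠ θ := by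
    by_contra hcon
    push Not at hcon
    have h2 : finrank E E' ≤ 1 := finrank_le_one (1 : E') fun w => by
      obtain ⟨c, hc⟩ := hcon w
      exact ⟨c, by rw [Algebra.smul_def, mul_one, hc]⟩
    omega
  have hli : LinearIndependent E ![(1 : E'), θ] := by
    rw [LinearIndependent.pair_iff]
    intro c d h
    have hd : d = 0 := by
      by_contra hd
      apply hθ (-c / d)
      have h1 : algebraMap E E' d ≠ 0 := by
        rw [Ne, map_eq_zero]; exact hd
      rw [map_div₀, map_neg, div_eq_iff h1]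
      rw [Algebra.smul_def, Algebra.smul_def, mul_one] at h
      linear_combination -h
    rw [hd, zero_smul, add_zero, Algebra.smul_def, mul_one, map_eq_zero] at h
    exact ⟨h, hd⟩
  have hspan0 : ∀ z : E', ∃ p q : E, z = algebraMap E E' p + algebraMap E E' q * θ := by
    intro z
    have h1 := hli.span_eq_top_of_card_eq_finrank (by simp [hfin])
    have h2 : z ∈ Submodule.span E (Set.range ![(1 : E'), θ]) := by rw [h1]; trivial
    rw [Matrix.range_cons, Matrix.range_cons, Matrix.range_empty, Set.union_empty,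
      Set.singleton_union, Submodule.mem_span_pair] at h2
    obtain ⟨p, q, h3⟩ := h2
    exact ⟨p, q, by rw [← h3, Algebra.smul_def, Algebra.smul_def, mul_one]⟩
  obtain ⟨t, s, hts⟩ := hspan0 (θ ^ 2)
  set φ := algebraMap E E' with hφ
  set δ : E' := θ - φ (s / 2) with hδ
  set d : E := t + s ^ 2 / 4 with hd
  have hδd : δ ^ 2 = φ d := by
    rw [hδ, hd]
    simp only [map_add, map_div₀, map_pow, map_ofNat]
    linear_combination hts
  have hspan : ∀ z : E', ∃ p q : E, z = φ p + φ q * δ := by
    intro z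
    obtain ⟨p, q, hz⟩ := hspan0 z
    refine ⟨p + q * (s / 2), q, ?_⟩
    rw [hδ, hz, map_add, map_mul]; ring
  have hδn : ∀ c : E, φ c ≠ δ := by
    intro c hc
    apply hθ (c + s / 2)
    rw [map_add, hc, hδ]; ring
  have hinj : Function.Injective φ := φ.injective
  -- values of `E`-forms
  have hE : ∀ e g : E, e ≠ 0 → g ≠ 0 → Nv (φ e) (φ g) := by
    intro e g he hg
    obtain ⟨x, y, hxy⟩ := hU e g he hg
    exact ⟨φ x, φ y, by rw [← hxy]; simp⟩
  -- Step 1
  have step1 : ∀ (e : E) (β : E'), e ≠ 0 → β ≠ 0 → Nv (φ e) β := by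
    intro e β he hβ
    obtain ⟨b1, b2, rfl⟩ := hspan β
    set n : E := b1 ^ 2 - d * b2 ^ 2 with hn
    have hnn : (φ b1 + φ b2 * δ) * (φ b1 - φ b2 * δ) = φ n := by
      rw [hn]
      simp only [map_sub, map_mul, map_pow]
      linear_combination -(φ b2) ^ 2 * hδd
    have hconj : φ b1 - φ b2 * δ ≠ 0 := by
      intro h0
      by_cases hb2 : b2 = 0
      · rw [hb2, map_zero, zero_mul, sub_zero] at h0
        apply hβ
        rw [hb2, h0, map_zero]; ring
      · apply hδn (b1 / b2)
        have h1 : φ b2 ≠ 0 := by rw [Ne, map_eq_zero]; exact hb2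
        rw [map_div₀, div_eq_iff h1]
        linear_combination h0
    have hn0 : n ≠ 0 := by
      intro h0
      rw [h0, map_zero] at hnn
      exact (mul_ne_zero hβ hconj) hnn
    obtain ⟨p, q, hpq⟩ := hU e n he hn0
    -- a general helper
    have key : ∀ p : E, p ^ 2 - e * q ^ 2 = n → b1 + p ≠ 0 → Nv (φ e) (φ b1 + φ b2 * δ) := by
      intro p hpq hg
      have h2 : (2 : E) * (b1 + p) ≠ 0 := mul_ne_zero two_ne_zero hg
      have h3 := hE e (2 * (b1 + p)) he h2
      have h3' : φ (2 * (b1 + p)) ≠ 0 := by rw [Ne, map_eq_zero]; exact h2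
      have h4 : Nv (φ e) ((φ b1 + φ b2 * δ) * φ (2 * (b1 + p))) := by
        refine ⟨φ b1 + φ b2 * δ + φ p, φ q, ?_⟩
        have h5 : φ p ^ 2 - φ e * φ q ^ 2 = φ n := by rw [← hpq]; simp
        simp only [map_mul, map_add, map_ofNat]
        linear_combination h5 - hnn
      have h6 := Nv_mul h4 (Nv_inv h3 h3')
      rwa [mul_assoc, mul_inv_cancel₀ h3', mul_one] at h6
    by_cases hg : b1 + p = 0
    · by_cases hg' : b1 + -p = 0
      · have hp : p = 0 := by
          have : (2 : E) * p = 0 := by linear_combination hg - hg'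
          exact (mul_eq_zero.1 this).resolve_left two_ne_zero
        have hb1 : b1 = 0 := by rw [hp, add_zero] at hg; exact hg
        have hq : q ≠ 0 := by
          rintro rfl
          apply hn0
          rw [← hpq, hp]; ring
        have hb2 : b2 ≠ 0 := by
          rintro rfl
          apply hn0
          rw [hn, hb1]; ring
        have he2 : φ e = (φ (b2 / q) * δ) ^ 2 := by
          have hq' : φ q ≠ 0 := by rw [Ne, map_eq_zero]; exact hq
          have h5 : d * b2 ^ 2 = e * q ^ 2 := by
            have : p ^ 2 - e * q ^ 2 = b1 ^ 2 - d * b2 ^ 2 := by rw [hpq, hn]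
            rw [hp, hb1] at this
            linear_combination this
          have h6 : φ d * φ b2 ^ 2 = φ e * φ q ^ 2 := by
            have := congrArg φ h5
            simpa using this
          rw [mul_pow, hδd, map_div₀, div_pow]
          field_simp
          linear_combination -h6
        have hne : φ (b2 / q) * δ ≠ 0 := by
          intro h0
          rw [h0] at he2
          apply he
          apply hinj
          rw [he2, map_zero]; ring
        rw [he2]
        exact Nv_sq hne _
      · exact key (-p) (by rw [neg_sq]; exact hpq) hg'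
    · exact key p hpq hg
  -- symmetric version
  have step1' : ∀ (e : E) (γ : E'), e ≠ 0 → γ ≠ 0 → Nv γ (φ e) := by
    intro e γ he hγ
    have he' : φ e ≠ 0 := by rw [Ne, map_eq_zero]; exact he
    exact Nv_symm he' hγ (step1 e γ he hγ)
  -- multiplying the slot by an element of `E`
  have hslot : ∀ (e : E) (α γ : E'), e ≠ 0 → α ≠ 0 → γ ≠ 0 → Nv (φ e * α) γ → Nv α γ := by
    intro e α γ he hα hγ h
    have he' : φ e ≠ 0 := by rw [Ne, map_eq_zero]; exact he
    have h1 := Nv_symm (mul_ne_zero he' hα) hγ h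
    have h2 := Nv_mul (Nv_inv (step1' e γ he hγ) he') h1
    rw [← mul_assoc, inv_mul_cancel₀ he', one_mul] at h2
    exact Nv_symm hγ hα h2
  -- Step 2
  intro α β hα hβ
  change Nv α β
  obtain ⟨a1, a2, haα⟩ := hspan α
  obtain ⟨b1, b2, hbβ⟩ := hspan β
  by_cases ha2 : a2 = 0
  · have : α = φ a1 := by rw [haα, ha2, map_zero]; ring
    rw [this]
    refine step1 a1 β ?_ hβ
    rintro rfl
    exact hα (by rw [this, map_zero])
  by_cases hb2 : b2 = 0
  · have : β = φ b1 := by rw [hbβ, hb2, map_zero]; ring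
    rw [this]
    refine step1' b1 α ?_ hα
    rintro rfl
    exact hβ (by rw [this, map_zero])
  have ha2' : φ a2 ≠ 0 := by rw [Ne, map_eq_zero]; exact ha2
  have hb2' : φ b2 ≠ 0 := by rw [Ne, map_eq_zero]; exact hb2
  -- `b2 α - a2 β = C`
  set C : E := b2 * a1 - a2 * b1 with hC
  have hrel : φ b2 * α - φ a2 * β = φ C := by
    rw [hC, haα, hbβ]
    simp only [map_sub, map_mul]
    ring
  by_cases hC0 : C = 0
  · rw [hC0, map_zero] at hrel
    have h1 : β = φ (-(b2 / a2)) * -α := by
      rw [map_neg, map_div₀]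
      field_simp
      linear_combination -hrel
    rw [h1]
    refine Nv_mul (step1' _ α ?_ hα) ⟨0, 1, by ring⟩
    exact neg_ne_zero.2 (div_ne_zero hb2 ha2)
  · have hC0' : φ C ≠ 0 := by rw [Ne, map_eq_zero]; exact hC0
    have h1 : Nv (φ (b2 / C) * α) (φ (-(a2 / C)) * β) := by
      refine ⟨1, 1, ?_⟩
      rw [map_neg, map_div₀, map_div₀]
      field_simp
      linear_combination -hrel
    have h2 : φ (-(a2 / C)) ≠ 0 := by
      rw [Ne, map_eq_zero]
      exact neg_ne_zero.2 (div_ne_zero ha2 hC0)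
    have h3 := hslot (b2 / C) α _ (div_ne_zero hb2 hC0) hα (mul_ne_zero h2 hβ) h1
    have h4 := Nv_mul (Nv_inv (step1' (-(a2 / C)) α
      (neg_ne_zero.2 (div_ne_zero ha2 hC0)) hα) h2) h3
    rwa [← mul_assoc, inv_mul_cancel₀ h2, one_mul] at h4

end Pool.Agent.Helper51.W4
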